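import Pool.Agent.Helper86.AP.Goals

/-!
# Packet AP-SIDE (MP_bec853_al): one side of the structure theorem
-/

set_option autoImplicit false

namespace Pool.Agent.Helper59.AP

open Pool.Agent.Helper35.PP Pool.Agent.Helper35.PX Pool.Agent.Helper86.AP

theorem suffix_mem {β : Type} {M : Set (List β)} (hM : FactorClosed M) {u v : List β}
    (h : u ++ v ∈ M) : v ∈ M := by
  apply hM u v []
  rwa [List.append_nil]

theorem nil_mem {β : Type} {M : Set (List β)} (hM : FactorClosed M) {u : List β}
    (h : u ∈ M) : ([] : List β) ∈ M := by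
  apply hM u [] []
  rwa [List.append_nil, List.append_nil]

theorem mp2 {β : Type} {M : Set (List β)} (hM : FactorClosed M) {u : List β}
    (h : u ∈ M) : u ∈ Mp M 2 :=
  ⟨u, h, [], ⟨[], nil_mem hM h, [], rfl, rfl⟩, (List.append_nil u).symm⟩

theorem tSIDE : S_SIDE := by
  intro β M m a d S j0 j1 hM hj h0 h1 hPA hPB hPC
  have hdt : ∀ j, a = S.P (j, true) ++ S.C (j, true) ++ S.X (j, true) := fun j => S.dec (j, true)
  have hdt' : ∀ e : Fin (m + 1) × Bool, e.2 = true → a = S.P e ++ S.C e ++ S.X e := by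
    intro e he
    have := S.dec e
    rw [he] at this
    exact this
  have hdf' : ∀ e : Fin (m + 1) × Bool, e.2 = false → d = S.P e ++ S.C e ++ S.X e := by
    intro e he
    have := S.dec e
    rw [he] at this
    exact this
  have hl : (S.P (j1, true)).length ≤ (S.P (j0, true)).length := h0 j1
  by_cases hc0 : ∃ k, k ≠ j0 ∧
      (S.P (k, true)).length + (S.C (k, true)).length ≤ (S.P (j1, true)).length
  · obtain ⟨k, hk, hle⟩ := hc0
    refine ⟨(S.P (j1, true)).length, le_rfl, hl, Or.inr ?_, Or.inl rfl⟩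
    refine ⟨(S.P (j1, true)).length, 1, le_rfl, ?_, le_rfl, ?_, ?_⟩
    · have := congrArg List.length (hdt j1)
      rw [List.length_append, List.length_append] at this
      omega
    · intro h h2 h3
      omega
    · apply mp2 hM
      have e1 : a.drop (S.P (j1, true)).length = (S.X (k, true)).drop
          ((S.P (j1, true)).length - (S.P (k, true) ++ S.C (k, true)).length) := by
        refine (congrArg (List.drop (S.P (j1, true)).length) (hdt k)).trans ?_
        rw [List.drop_append, List.drop_eq_nil_of_le, List.nil_append]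
        rw [List.length_append]
        exact hle
      rw [e1]
      have h3 := S.hx (k, true)
      rw [← List.take_append_drop ((S.P (j1, true)).length -
        (S.P (k, true) ++ S.C (k, true)).length) (S.X (k, true))] at h3
      exact suffix_mem hM h3
  push Not at hc0
  by_cases hc1 : ∃ j, j ≠ j0 ∧ (S.pi (j, true)).2 = true
  · obtain ⟨j, hjj, hpi⟩ := hc1
    refine ⟨(S.P (j1, true)).length, le_rfl, hl, Or.inr ?_, Or.inl rfl⟩
    have hCne : S.C (j, true) ≠ [] := by
      intro hnil
      have h2 := hc0 j hjj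
      have h3 := h1 j hjj
      rw [hnil, List.length_nil] at h2
      omega
    have hlen := S.nd (j, true) hpi hCne
    have e1 := hdt j
    have e2 := hdt' _ hpi
    rw [S.cc (j, true)] at e2
    rcases Nat.lt_or_gt_of_ne hlen with hlt | hgt
    · exact hPA β M a _ _ _ _ _ _ hM e1 e2 (S.hx _) hlt (h1 j hjj) (hc0 j hjj).le
    · obtain ⟨j', b, hf⟩ : ∃ j' b, S.pi (j, true) = (j', b) := ⟨_, _, rfl⟩
      rw [hf] at hpi
      simp only at hpi
      subst hpi
      rw [hf] at hgt e2
      have hj' : j' ≠ j0 := by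
        rintro rfl
        have := h1 j hjj
        omega
      refine hPA β M a _ _ _ _ _ _ hM e2 e1 (S.hx _) hgt ?_ ?_
      · have := h1 j hjj
        omega
      · have h2 := hc0 j' hj'
        have h3 := S.cc (j, true)
        rw [hf] at h3
        rw [h3] at h2
        exact h2.le
  push Not at hc1
  have hf : ∀ j, j ≠ j0 → (S.pi (j, true)).2 = false := by
    intro j hjj
    have := hc1 j hjj
    simpa using this
  by_cases hc2 : ∃ j j', j ≠ j0 ∧ j' ≠ j0 ∧
      (S.P (S.pi (j', true))).length + (S.P (j, true)).length <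
        (S.P (S.pi (j, true))).length + (S.P (j', true)).length
  · obtain ⟨j, j', hjj, hjj', hlt⟩ := hc2
    refine ⟨(S.P (j1, true)).length, le_rfl, hl, Or.inr ?_, Or.inl rfl⟩
    have e1 := hdt j
    have e2 := hdt j'
    have e3 := hdf' _ (hf j hjj)
    have e4 := hdf' _ (hf j' hjj')
    rw [S.cc] at e3 e4
    exact hPB β M a d _ _ _ _ _ _ _ _ _ _ _ hM e1 e3 e2 e4 (S.hx _) (S.hx _) hlt (h1 j hjj)
      (h1 j' hjj') (hc0 j hjj).le (hc0 j' hjj').le
  push Not at hc2
  have hO : ∀ j, j ≠ j0 → ((S.P (S.pi (j, true))).length : ℤ) = (S.P (j, true)).length +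
      (((S.P (S.pi (j1, true))).length : ℤ) - (S.P (j1, true)).length) := by
    intro j hjj
    have h2 := hc2 j j1 hjj hj
    have h3 := hc2 j1 j hj hjj
    omega
  have hD : (S.pi (j0, true)).2 = false := by
    by_contra hcon
    have hcon' : (S.pi (j0, true)).2 = true := by simpa using hcon
    obtain ⟨j', b, hf'⟩ : ∃ j' b, S.pi (j0, true) = (j', b) := ⟨_, _, rfl⟩
    rw [hf'] at hcon'
    simp only at hcon'
    subst hcon'
    have hj' : j' ≠ j0 := by
      rintro rfl
      exact S.nofix _ hf'
    have h2 := hf j' hj'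
    have h3 := S.invol (j0, true)
    rw [hf'] at h3
    rw [h3] at h2
    simp at h2
  have e1 := hdt j1
  have e2 := hdt j0
  have e3 := hdf' _ (hf j1 hj)
  have e4 := hdf' _ hD
  rw [S.cc] at e3 e4
  obtain ⟨E, k1, k2, k3, k4⟩ := hPC β M a d _ _ _ _ _ _ _ _ _ _ (S.P (j1, true)).length hM e1 e3
    e2 e4 (S.hx _) (S.hx _) le_rfl hl (hc0 j1 hj).le
  refine ⟨E, k1, k2, k3, ?_⟩
  rcases k4 with k4 | ⟨k4, k5, k6⟩
  · exact Or.inl k4
  · right
    refine ⟨hD, _, fun j hjj => ⟨hf j hjj, hO j hjj⟩, by omega, ?_⟩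
    intro h h2 h3
    refine ⟨by omega, ?_⟩
    rw [k6 h h2 h3]
    congr 1
    omega

end Pool.Agent.Helper59.AP
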